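import Mathlib

/-!
# Counting sets complemented by some element of a group
-/

set_option autoImplicit false

namespace Pool.Agent.H124R2.SC

open Equiv

variable {E : Type} {ι : Type}

/-- The signed lift of a permutation of `E` to `E × {true, false}`: it also flips the sign. -/
def lift (s : Perm E) : Perm (E × Bool) where
  toFun x := (s x.1, !x.2)
  invFun x := (s.symm x.1, !x.2)
  left_inv x := by simp
  right_inv x := by simp

/-- The number of orbits on `E` of the group generated by the permutations `t i`. -/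
noncomputable def orb (t : ι → Perm E) : ℕ :=
  Nat.card (MulAction.orbitRel.Quotient (Subgroup.closure (Set.range t)) E)

/-- `2 ^ o` if the group generated by the signed lifts of the `t i` has exactly `2 * o` orbits on
`E × {true, false}`, where `o` is the number of orbits on `E` of the group generated by the
`t i`; and `0` otherwise. -/
noncomputable def phi (t : ι → Perm E) : ℕ :=
  if orb (fun i => lift (t i)) = 2 * orb t then 2 ^ orb t else 0

/-- the orbit relation -/
def Rl (t : ι → Perm E) (a b : E) : Prop :=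
  MulAction.orbitRel (Subgroup.closure (Set.range t)) E a b

lemma rl_refl (t : ι → Perm E) (a : E) : Rl t a a :=
  (MulAction.orbitRel (Subgroup.closure (Set.range t)) E).refl a

lemma rl_symm {t : ι → Perm E} {a b : E} (h : Rl t a b) : Rl t b a :=
  (MulAction.orbitRel (Subgroup.closure (Set.range t)) E).symm h

lemma rl_trans {t : ι → Perm E} {a b c : E} (h : Rl t a b) (h' : Rl t b c) : Rl t a c :=
  (MulAction.orbitRel (Subgroup.closure (Set.range t)) E).trans h h'

lemma rl_iff {t : ι → Perm E} {a b : E} :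
    Rl t a b ↔ ∃ g ∈ Subgroup.closure (Set.range t), g b = a := by
  unfold Rl
  rw [MulAction.orbitRel_apply, MulAction.mem_orbit_iff]
  constructor
  · rintro ⟨g, hg⟩
    exact ⟨g.1, g.2, hg⟩
  · rintro ⟨g, hg, h⟩
    exact ⟨⟨g, hg⟩, h⟩

lemma rl_gen (t : ι → Perm E) (i : ι) (a : E) : Rl t (t i a) a :=
  rl_iff.2 ⟨t i, Subgroup.subset_closure ⟨i, rfl⟩, rfl⟩

/-- induction along the orbit relation -/
lemma rl_induct {t : ι → Perm E} {P : E → E → Prop} (h1 : ∀ a, P a a)
    (hg : ∀ i a, P (t i a) a) (hs : ∀ a b, P a b → P b a)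
    (ht : ∀ a b c, P a b → P b c → P a c) {a b : E} (h : Rl t a b) : P a b := by
  obtain ⟨g, hg', rfl⟩ := rl_iff.1 h
  clear h
  have H : ∀ c, P (g c) c := by
    induction hg' using Subgroup.closure_induction with
    | mem x hx =>
      obtain ⟨i, rfl⟩ := hx
      exact hg i
    | one => exact h1
    | mul x y _ _ hx hy =>
      intro c
      exact ht _ _ _ (hx (y c)) (hy c)
    | inv x _ hx =>
      intro c
      have := hx (x⁻¹ c)
      rw [← Perm.mul_apply, mul_inv_cancel, Perm.one_apply] at this
      exact hs _ _ this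
  exact H b

lemma lift_flip {t : ι → Perm E} {x y : E × Bool} (h : Rl (fun i => lift (t i)) x y) :
    Rl (fun i => lift (t i)) (x.1, !x.2) (y.1, !y.2) := by
  refine rl_induct (t := fun i => lift (t i)) (P := fun x y =>
    Rl (fun i => lift (t i)) (x.1, !x.2) (y.1, !y.2)) ?_ ?_ ?_ ?_ h
  · intro a; exact rl_refl _ _
  · intro i a
    exact rl_gen (fun i => lift (t i)) i (a.1, !a.2)
  · intro a b h; exact rl_symm h
  · intro a b c h h'; exact rl_trans h h'

lemma lift_fst {t : ι → Perm E} {x y : E × Bool} (h : Rl (fun i => lift (t i)) x y) :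
    Rl t x.1 y.1 := by
  refine rl_induct (t := fun i => lift (t i)) (P := fun x y => Rl t x.1 y.1) ?_ ?_ ?_ ?_ h
  · intro a; exact rl_refl _ _
  · intro i a
    exact rl_gen t i a.1
  · intro a b h; exact rl_symm h
  · intro a b c h h'; exact rl_trans h h'

lemma lift_rel {t : ι → Perm E} {a b : E} (h : Rl t a b) :
    ∀ c : Bool, ∃ d : Bool, Rl (fun i => lift (t i)) (a, d) (b, c) := by
  refine rl_induct (t := t) (P := fun a b => ∀ c : Bool, ∃ d : Bool,
    Rl (fun i => lift (t i)) (a, d) (b, c)) ?_ ?_ ?_ ?_ h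
  · intro a c
    exact ⟨c, rl_refl _ _⟩
  · intro i a c
    exact ⟨!c, rl_gen (fun i => lift (t i)) i (a, c)⟩
  · intro a b h c
    obtain ⟨d, hd⟩ := h c
    by_cases hdc : d = c
    · subst hdc
      exact ⟨d, rl_symm hd⟩
    · have e1 : d = !c := by cases d <;> cases c <;> simp_all
      subst e1
      have h5 := lift_flip (rl_symm hd)
      simp only [Bool.not_not] at h5
      exact ⟨!c, h5⟩
  · intro a b c h h' d
    obtain ⟨d1, h1⟩ := h' d
    obtain ⟨d2, h2⟩ := h d1
    exact ⟨d2, rl_trans h2 h1⟩

/-- the functions with values in `Bool` whose value is flipped by all `t i` -/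
abbrev Alt (t : ι → Perm E) : Type := {f : E → Bool // ∀ i e, f (t i e) = !f e}

lemma alt_xor {t : ι → Perm E} (f : Alt t) {x y : E × Bool}
    (h : Rl (fun i => lift (t i)) x y) : xor (f.1 x.1) x.2 = xor (f.1 y.1) y.2 := by
  refine rl_induct (t := fun i => lift (t i)) (P := fun x y =>
    xor (f.1 x.1) x.2 = xor (f.1 y.1) y.2) ?_ ?_ ?_ ?_ h
  · intro a; rfl
  · intro i a
    have := f.2 i a.1
    simp only [lift, Equiv.coe_fn_mk, this]
    simp
  · intro a b h; exact h.symm
  · intro a b c h h'; exact h.trans h'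

/-- the quotient by the orbit relation -/
abbrev Qt (t : ι → Perm E) : Type :=
  MulAction.orbitRel.Quotient (Subgroup.closure (Set.range t)) E

/-- the class of an element -/
def cl (t : ι → Perm E) (a : E) : Qt t :=
  Quotient.mk (MulAction.orbitRel (Subgroup.closure (Set.range t)) E) a

lemma cl_eq {t : ι → Perm E} {a b : E} : cl t a = cl t b ↔ Rl t a b := by
  unfold cl Rl
  exact Quotient.eq

/-- a representative -/
noncomputable def rep (t : ι → Perm E) (q : Qt t) : E :=
  Quotient.out (s := MulAction.orbitRel (Subgroup.closure (Set.range t)) E) q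

lemma cl_rep (t : ι → Perm E) (q : Qt t) : cl t (rep t q) = q := by
  unfold cl rep
  exact Quotient.out_eq q

lemma rl_rep (t : ι → Perm E) (a : E) : Rl t (rep t (cl t a)) a :=
  cl_eq.1 (cl_rep t _)

/-- the comparison map -/
noncomputable def psi (t : ι → Perm E) (x : Qt t × Bool) : Qt (fun i => lift (t i)) :=
  cl _ (rep t x.1, x.2)

lemma psi_surj (t : ι → Perm E) : Function.Surjective (psi t) := by
  intro q
  obtain ⟨⟨a, d⟩, rfl⟩ : ∃ x, cl _ x = q := ⟨rep _ q, cl_rep _ q⟩
  obtain ⟨c, hc⟩ := lift_rel (rl_rep t a) d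
  exact ⟨(cl t a, c), cl_eq.2 hc⟩

lemma psi_inj {t : ι → Perm E} (f : Alt t) : Function.Injective (psi t) := by
  rintro ⟨q, c⟩ ⟨q', c'⟩ h
  have h1 := cl_eq.1 h
  have h2 : q = q' := by
    have := cl_eq.2 (lift_fst h1)
    simpa only [cl_rep] using this
  subst h2
  have h3 := alt_xor f h1
  have h4 : c = c' := by
    simpa using h3
  rw [h4]

lemma orb_lift {t : ι → Perm E} (f : Alt t) : orb (fun i => lift (t i)) = 2 * orb t := by
  have h := Nat.card_congr (Equiv.ofBijective (psi t) ⟨psi_inj f, psi_surj t⟩)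
  rw [Nat.card_prod] at h
  unfold orb
  rw [← h]
  simp [mul_comm]

lemma alt_of_orb [Finite E] {t : ι → Perm E} (h : orb (fun i => lift (t i)) = 2 * orb t) :
    Nonempty (Alt t) := by
  classical
  have hb : Function.Bijective (psi t) := by
    apply Function.Surjective.bijective_of_nat_card_le (psi_surj t)
    rw [Nat.card_prod]
    unfold orb at h
    rw [h]
    simp [mul_comm]
  have hne : ∀ a, ¬ Rl (fun i => lift (t i)) (rep t a, true) (rep t a, false) := by
    intro a ha
    have := hb.1 (a₁ := (a, true)) (a₂ := (a, false)) (cl_eq.2 ha)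
    simp at this
  have hex : ∀ a, ∃ d, Rl (fun i => lift (t i)) (a, d) (rep t (cl t a), true) := fun a =>
    lift_rel (rl_symm (rl_rep t a)) true
  choose f hf using hex
  refine ⟨⟨f, ?_⟩⟩
  intro i a
  have h1 : cl t (t i a) = cl t a := cl_eq.2 (rl_gen t i a)
  have h2 := hf (t i a)
  rw [h1] at h2
  have h3 : Rl (fun i => lift (t i)) (t i a, !f a) (rep t (cl t a), true) :=
    rl_trans (rl_gen (fun i => lift (t i)) i (a, f a)) (hf a)
  by_contra hc
  have h4 : f (t i a) = f a := by
    cases hx : f (t i a) <;> cases hy : f a <;> simp_all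
  rw [h4] at h2
  have h5 := lift_flip h3
  simp only [Bool.not_not, Bool.not_true] at h5
  exact hne _ (rl_trans (rl_symm h2) h5)

lemma alt_cl {t : ι → Perm E} (f g : Alt t) {a b : E} (h : Rl t a b) :
    xor (f.1 a) (g.1 a) = xor (f.1 b) (g.1 b) := by
  refine rl_induct (t := t) (P := fun a b =>
    xor (f.1 a) (g.1 a) = xor (f.1 b) (g.1 b)) ?_ ?_ ?_ ?_ h
  · intro a; rfl
  · intro i a
    rw [f.2 i a, g.2 i a]
    simp
  · intro a b h; exact h.symm
  · intro a b c h h'; exact h.trans h'

/-- the alternating functions are a torsor for the functions on the set of orbits -/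
noncomputable def altEquiv {t : ι → Perm E} (f : Alt t) : (Qt t → Bool) ≃ Alt t where
  toFun g := ⟨fun e => xor (f.1 e) (g (cl t e)), by
    intro i e
    have h1 : cl t (t i e) = cl t e := cl_eq.2 (rl_gen t i e)
    show xor (f.1 (t i e)) (g (cl t (t i e))) = !(xor (f.1 e) (g (cl t e)))
    rw [h1, f.2 i e]
    cases f.1 e <;> simp⟩
  invFun g := fun q => xor (f.1 (rep t q)) (g.1 (rep t q))
  left_inv g := by
    funext q
    simp [cl_rep]
  right_inv g := by
    apply Subtype.ext
    funext e
    have := alt_cl f g (rl_rep t e)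
    simp only [this, ← Bool.xor_assoc]
    simp

/-- **The counting lemma.** -/
theorem card_alt [Finite E] (t : ι → Perm E) : Nat.card (Alt t) = phi t := by
  classical
  unfold phi
  split_ifs with h
  · obtain ⟨f⟩ := alt_of_orb h
    rw [← Nat.card_congr (altEquiv f), Nat.card_fun]
    simp [orb]
  · rw [Nat.card_eq_zero]
    left
    constructor
    intro f
    exact h (orb_lift f)

end Pool.Agent.H124R2.SC
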