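import Pool.Agent.H124R2.SC.Moment

/-!
# Labeled self-complementary graphs and digraphs
-/

set_option autoImplicit false

namespace Pool.Agent.H124R2.SC

open Equiv Finset

/-- the unordered pairs of distinct elements of `{1, …, p}` -/
abbrev Pair (p : ℕ) : Type := {e : Sym2 (Fin p) // ¬ e.IsDiag}

/-- the ordered pairs of distinct elements of `{1, …, p}` -/
abbrev OPair (p : ℕ) : Type := {a : Fin p × Fin p // a.1 ≠ a.2}

lemma not_isDiag_map {p : ℕ} (s : Perm (Fin p)) {e : Sym2 (Fin p)} (h : ¬ e.IsDiag) :
    ¬ (Sym2.map s e).IsDiag := by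
  induction e using Sym2.ind with
  | _ x y =>
    simp only [Sym2.map_mk, Sym2.mk_isDiag_iff] at h ⊢
    exact fun h' => h (s.injective h')

/-- A permutation `s` of `{1, …, p}` acts on the unordered pairs by `{u, v} ↦ {s u, s v}`. -/
def onPairs (p : ℕ) : Perm (Fin p) →* Perm (Pair p) where
  toFun s :=
    { toFun := fun e => ⟨Sym2.map s e.1, not_isDiag_map s e.2⟩
      invFun := fun e => ⟨Sym2.map s.symm e.1, not_isDiag_map s.symm e.2⟩
      left_inv := fun e => by
        apply Subtype.ext
        simp [Sym2.map_map]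
      right_inv := fun e => by
        apply Subtype.ext
        simp [Sym2.map_map] }
  map_one' := by
    ext e
    simp
  map_mul' s t := by
    apply Equiv.ext
    intro e
    apply Subtype.ext
    simp [Sym2.map_map]

/-- A permutation `s` of `{1, …, p}` acts on the ordered pairs by `(u, v) ↦ (s u, s v)`. -/
def onOPairs (p : ℕ) : Perm (Fin p) →* Perm (OPair p) where
  toFun s :=
    { toFun := fun a => ⟨(s a.1.1, s a.1.2), fun h => a.2 (s.injective h)⟩
      invFun := fun a => ⟨(s.symm a.1.1, s.symm a.1.2), fun h => a.2 (s.symm.injective h)⟩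
      left_inv := fun a => by simp
      right_inv := fun a => by simp }
  map_one' := by
    ext e <;> simp
  map_mul' s t := by
    ext e <;> simp

/-- graphs as functions on the pairs -/
noncomputable def graphEquiv (p : ℕ) : SimpleGraph (Fin p) ≃ (Pair p → Bool) := by
  classical
  exact
  { toFun := fun G e => decide (e.1 ∈ G.edgeSet)
    invFun := fun f =>
      { Adj := fun u v => ∃ h : ¬ (s(u, v)).IsDiag, f ⟨s(u, v), h⟩ = true
        symm := ⟨by
          rintro u v ⟨h, h'⟩
          have e : s(v, u) = s(u, v) := Sym2.eq_swap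
          refine ⟨by rw [e]; exact h, ?_⟩
          rw [← h']
          congr 1
          exact Subtype.ext e⟩
        loopless := ⟨by
          rintro u ⟨h, -⟩
          exact h (by simp)⟩ }
    left_inv := by
      intro G
      ext u v
      simp only [SimpleGraph.mem_edgeSet, decide_eq_true_eq, exists_prop, Sym2.mk_isDiag_iff]
      exact ⟨fun h => h.2, fun h => ⟨h.ne, h⟩⟩
    right_inv := by
      intro f
      funext e
      obtain ⟨e, he⟩ := e
      induction e using Sym2.ind with
      | _ x y =>
        simp only [SimpleGraph.mem_edgeSet]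
        cases hf : f ⟨s(x, y), he⟩
        · simp only [decide_eq_false_iff_not]
          rintro ⟨h, h'⟩
          rw [hf] at h'
          exact Bool.false_ne_true h'
        · simp only [decide_eq_true_eq]
          exact ⟨he, hf⟩ }

lemma graphEquiv_apply {p : ℕ} (G : SimpleGraph (Fin p)) (e : Pair p) :
    graphEquiv p G e = true ↔ e.1 ∈ G.edgeSet := by
  unfold graphEquiv
  simp

lemma sc_iff {p : ℕ} (G : SimpleGraph (Fin p)) :
    Nonempty (G ≃g Gᶜ) ↔
      ∃ s : Perm (Fin p), ∀ e, graphEquiv p G (onPairs p s e) = !graphEquiv p G e := by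
  constructor
  · rintro ⟨φ⟩
    refine ⟨φ.toEquiv, ?_⟩
    rintro ⟨e, he⟩
    induction e using Sym2.ind with
    | _ x y =>
      have h := φ.map_rel_iff (a := x) (b := y)
      rw [SimpleGraph.compl_adj] at h
      have hne : φ x ≠ φ y := by
        intro hh
        exact he (by simpa using φ.toEquiv.injective hh)
      have h2 : G.Adj (φ x) (φ y) ↔ ¬ G.Adj x y := by
        constructor
        · intro h3 h4
          exact (h.2 h4).2 h3
        · intro h3
          by_contra h4
          exact h3 (h.1 ⟨hne, h4⟩)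
      have h5 : graphEquiv p G (onPairs p φ.toEquiv ⟨s(x, y), he⟩) = true ↔
          ¬ (graphEquiv p G ⟨s(x, y), he⟩ = true) := by
        rw [graphEquiv_apply, graphEquiv_apply]
        exact h2
      cases h6 : graphEquiv p G (onPairs p φ.toEquiv ⟨s(x, y), he⟩) <;>
        cases h7 : graphEquiv p G ⟨s(x, y), he⟩ <;> simp_all
  · rintro ⟨s, hs⟩
    refine ⟨⟨s, ?_⟩⟩
    intro x y
    rw [SimpleGraph.compl_adj]
    by_cases hxy : x = y
    · subst hxy
      simp
    · have he : ¬ (s(x, y)).IsDiag := by simpa using hxy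
      have h := hs ⟨s(x, y), he⟩
      have h1 := graphEquiv_apply G ⟨s(x, y), he⟩
      have h2 := graphEquiv_apply G (onPairs p s ⟨s(x, y), he⟩)
      have h3 : ((onPairs p s ⟨s(x, y), he⟩).1 ∈ G.edgeSet) ↔ G.Adj (s x) (s y) := Iff.rfl
      have h4 : ((⟨s(x, y), he⟩ : Pair p).1 ∈ G.edgeSet) ↔ G.Adj x y := Iff.rfl
      rw [h4] at h1
      rw [h3, h] at h2
      have hne : s x ≠ s y := fun hh => hxy (s.injective hh)
      rw [← h1, ← h2]
      cases graphEquiv p G ⟨s(x, y), he⟩ <;> simp [hne]

/-- The complement of a digraph without loops. -/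
def dcompl {p : ℕ} (D : Digraph (Fin p)) : Digraph (Fin p) := ⟨fun u v => u ≠ v ∧ ¬ D.Adj u v⟩

/-- A digraph without loops that is isomorphic to its complement. -/
def DSC {p : ℕ} (D : Digraph (Fin p)) : Prop :=
  (∀ u, ¬ D.Adj u u) ∧
    ∃ s : Perm (Fin p), ∀ u v, (dcompl D).Adj (s u) (s v) ↔ D.Adj u v

lemma dec_eq {P : Prop} (inst : Decidable P) {b : Bool} (h : P ↔ b = true) :
    @decide P inst = b := by
  cases b <;> simp_all

/-- self-complementary digraphs as functions on the ordered pairs -/
lemma card_dsc (p : ℕ) : Nat.card {D : Digraph (Fin p) // DSC D} =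
    Nat.card {f : OPair p → Bool // ∃ s : Perm (Fin p), ∀ e, f (onOPairs p s e) = !f e} := by
  classical
  apply Nat.card_congr
  exact
  { toFun := fun D => ⟨fun e => decide (D.1.Adj e.1.1 e.1.2), by
      obtain ⟨D, h0, s, hs⟩ := D
      refine ⟨s, ?_⟩
      rintro ⟨⟨u, v⟩, hne⟩
      have h := hs u v
      have hne' : s u ≠ s v := fun h => hne (s.injective h)
      have h2 : D.Adj (s u) (s v) ↔ ¬ D.Adj u v := by
        constructor
        · intro h3 h4
          exact (h.2 h4).2 h3
        · intro h3
          by_contra h4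
          exact h3 (h.1 ⟨hne', h4⟩)
      show decide (D.Adj (s u) (s v)) = !decide (D.Adj u v)
      by_cases h5 : D.Adj u v <;> simp [h2, h5]⟩
    invFun := fun f => ⟨⟨fun u v => ∃ h : u ≠ v, f.1 ⟨(u, v), h⟩ = true⟩, by
      obtain ⟨f, s, hs⟩ := f
      refine ⟨fun u ⟨h, _⟩ => h rfl, s, ?_⟩
      intro u v
      by_cases hne : u = v
      · subst hne
        simp [dcompl]
      · have hne' : s u ≠ s v := fun h => hne (s.injective h)
        have h : f ⟨(s u, s v), hne'⟩ = !f ⟨(u, v), hne⟩ := hs ⟨(u, v), hne⟩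
        simp only [dcompl, ne_eq, hne', not_false_eq_true, exists_true_left, h, hne]
        cases f ⟨(u, v), hne⟩ <;> simp⟩
    left_inv := by
      rintro ⟨D, h0, s, hs⟩
      apply Subtype.ext
      have : ∀ u v, (∃ h : u ≠ v, D.Adj u v) ↔ D.Adj u v := by
        intro u v
        constructor
        · rintro ⟨_, h⟩
          exact h
        · intro h
          exact ⟨fun h' => by subst h'; exact h0 _ h, h⟩
      cases D with
      | mk A =>
        simp only [Digraph.mk.injEq]
        funext u v
        simpa using this u v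
    right_inv := by
      rintro ⟨f, s, hs⟩
      apply Subtype.ext
      funext e
      obtain ⟨⟨u, v⟩, hne⟩ := e
      refine dec_eq _ ?_
      exact ⟨fun ⟨_, h'⟩ => h', fun h => ⟨hne, h⟩⟩ }

theorem graphs_formula (p : ℕ) :
    (Nat.card {G : SimpleGraph (Fin p) // Nonempty (G ≃g Gᶜ)} : ℚ) =
      ∑ k ∈ Icc 1 (Nat.factorial p).divisors.card,
        (-1) ^ (k + 1) * recEsymm (Nat.factorial p) k *
          ∑ s : Fin k → Perm (Fin p), (phi (fun i => onPairs p (s i)) : ℚ) := by
  have h := moment_formula (onPairs p)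
  rw [Fintype.card_fin] at h
  rw [← h]
  congr 1
  exact Nat.card_congr (Equiv.subtypeEquiv (graphEquiv p) fun G => sc_iff G)

theorem digraphs_formula (p : ℕ) :
    (Nat.card {D : Digraph (Fin p) // DSC D} : ℚ) =
      ∑ k ∈ Icc 1 (Nat.factorial p).divisors.card,
        (-1) ^ (k + 1) * recEsymm (Nat.factorial p) k *
          ∑ s : Fin k → Perm (Fin p), (phi (fun i => onOPairs p (s i)) : ℚ) := by
  have h := moment_formula (onOPairs p)
  rw [Fintype.card_fin] at h
  rw [← h, card_dsc]

end Pool.Agent.H124R2.SC
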