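import Pool.Agent.H124R2.SC.Count

/-!
# The moment formula
-/

set_option autoImplicit false

namespace Pool.Agent.H124R2.SC

open Equiv Finset

variable {E V : Type} [Fintype E] [DecidableEq E] [Fintype V] [DecidableEq V]

/-- the number of permutations `s` flipping `f` -/
noncomputable def cnt (r : Perm V →* Perm E) (f : E → Bool) : ℕ :=
  Nat.card {s : Perm V // ∀ e, f (r s e) = !f e}

/-- the stabiliser -/
def stab (r : Perm V →* Perm E) (f : E → Bool) : Subgroup (Perm V) where
  carrier := {s | ∀ e, f (r s e) = f e}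
  mul_mem' := by
    intro a b ha hb e
    rw [map_mul, Perm.mul_apply, ha, hb]
  one_mem' := by
    intro e
    simp
  inv_mem' := by
    intro a ha e
    have := ha ((r a⁻¹) e)
    rw [← Perm.mul_apply, ← map_mul, mul_inv_cancel, map_one, Perm.one_apply] at this
    exact this.symm

lemma cnt_dvd (r : Perm V →* Perm E) (f : E → Bool) (h : cnt r f ≠ 0) :
    cnt r f ∈ (Nat.factorial (Fintype.card V)).divisors := by
  rw [Nat.mem_divisors]
  refine ⟨?_, Nat.factorial_ne_zero _⟩
  unfold cnt at h ⊢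
  rw [Nat.card_ne_zero] at h
  obtain ⟨⟨s0, h0⟩⟩ := h.1
  have e : {s : Perm V // ∀ e, f (r s e) = !f e} ≃ stab r f :=
    { toFun := fun s => ⟨s0⁻¹ * s.1, by
        intro e
        have h1 := h0 ((r (s0⁻¹ * s.1)) e)
        rw [← Perm.mul_apply, ← map_mul, mul_inv_cancel_left, s.2] at h1
        simpa using h1.symm⟩
      invFun := fun s => ⟨s0 * s.1, by
        intro e
        rw [map_mul, Perm.mul_apply, h0, s.2 e]⟩
      left_inv := fun s => by simp
      right_inv := fun s => by simp }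
  rw [Nat.card_congr e]
  have := Subgroup.card_subgroup_dvd_card (stab r f)
  rwa [Nat.card_perm, Nat.card_eq_fintype_card (α := V)] at this

/-- The elementary symmetric polynomials of the reciprocals of the divisors of `m`. -/
def recEsymm (m k : ℕ) : ℚ :=
  ∑ A ∈ (m.divisors).powersetCard k, ∏ d ∈ A, ((d : ℚ))⁻¹

lemma indicator_expand (m n : ℕ) (h : n ≠ 0 → n ∈ m.divisors) :
    ((if n ≠ 0 then 1 else 0 : ℚ)) =
      ∑ k ∈ Icc 1 m.divisors.card, (-1) ^ (k + 1) * recEsymm m k * (n : ℚ) ^ k := by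
  have h1 : ∏ d ∈ m.divisors, (1 + (-((n : ℚ) * (d : ℚ)⁻¹))) = if n ≠ 0 then 0 else 1 := by
    split_ifs with h0
    · apply Finset.prod_eq_zero (h h0)
      have : (n : ℚ) ≠ 0 := by exact_mod_cast h0
      rw [mul_inv_cancel₀ this]
      ring
    · have : n = 0 := by simpa using h0
      simp [this]
  rw [Finset.prod_one_add] at h1
  have h2 : ∑ A ∈ m.divisors.powerset, ∏ d ∈ A, (-((n : ℚ) * (d : ℚ)⁻¹)) =
      ∑ k ∈ range (m.divisors.card + 1), (-1) ^ k * recEsymm m k * (n : ℚ) ^ k := by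
    rw [Finset.sum_powerset]
    apply Finset.sum_congr rfl
    intro k _
    unfold recEsymm
    rw [Finset.mul_sum, Finset.sum_mul]
    apply Finset.sum_congr rfl
    intro A hA
    rw [Finset.mem_powersetCard] at hA
    have : ∀ d ∈ A, -((n : ℚ) * (d : ℚ)⁻¹) = (-1 * (n : ℚ)) * (d : ℚ)⁻¹ := by
      intro d _
      ring
    rw [Finset.prod_congr rfl this, Finset.prod_mul_distrib, Finset.prod_const, hA.2, mul_pow]
    ring
  rw [h2, Finset.range_eq_Ico, Finset.sum_eq_sum_Ico_succ_bot (Nat.succ_pos _)] at h1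
  have h3 : recEsymm m 0 = 1 := by simp [recEsymm]
  have h4 : ∑ k ∈ Icc 1 m.divisors.card, (-1) ^ (k + 1) * recEsymm m k * (n : ℚ) ^ k =
      - ∑ k ∈ Ico (0 + 1) (m.divisors.card + 1), (-1) ^ k * recEsymm m k * (n : ℚ) ^ k := by
    rw [← Finset.sum_neg_distrib]
    apply Finset.sum_congr
    · ext x
      simp [Finset.mem_Icc, Finset.mem_Ico]
    · intro k _
      ring
  rw [h4]
  rw [h3] at h1
  split_ifs at h1 ⊢ with h0
  · linarith
  · linarith

/-- **The moment formula** for the number of functions flipped by some element. -/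
theorem moment_formula (r : Perm V →* Perm E) :
    (Nat.card {f : E → Bool // ∃ s : Perm V, ∀ e, f (r s e) = !f e} : ℚ) =
      ∑ k ∈ Icc 1 (Nat.factorial (Fintype.card V)).divisors.card,
        (-1) ^ (k + 1) * recEsymm (Nat.factorial (Fintype.card V)) k *
          ∑ s : Fin k → Perm V, (phi (fun i => r (s i)) : ℚ) := by
  classical
  have h1 : (Nat.card {f : E → Bool // ∃ s : Perm V, ∀ e, f (r s e) = !f e} : ℚ) =
      ∑ f : E → Bool, (if cnt r f ≠ 0 then 1 else 0 : ℚ) := by
    rw [Nat.card_eq_fintype_card, Fintype.card_subtype, Finset.sum_boole]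
    congr 2
    ext f
    simp only [mem_filter, mem_univ, true_and]
    unfold cnt
    rw [Nat.card_ne_zero]
    constructor
    · rintro ⟨s, hs⟩
      exact ⟨⟨⟨s, hs⟩⟩, inferInstance⟩
    · rintro ⟨⟨⟨s, hs⟩⟩, _⟩
      exact ⟨s, hs⟩
  rw [h1]
  have h2 : ∀ f : E → Bool, (if cnt r f ≠ 0 then 1 else 0 : ℚ) =
      ∑ k ∈ Icc 1 (Nat.factorial (Fintype.card V)).divisors.card,
        (-1) ^ (k + 1) * recEsymm (Nat.factorial (Fintype.card V)) k * (cnt r f : ℚ) ^ k :=
    fun f => indicator_expand _ _ (cnt_dvd r f)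
  rw [Finset.sum_congr rfl fun f _ => h2 f, Finset.sum_comm]
  apply Finset.sum_congr rfl
  intro k _
  rw [← Finset.mul_sum]
  congr 1
  -- both sides count the pairs `(f, s)` with `f` flipped by all `s i`
  have h3 : ∀ f : E → Bool, (cnt r f : ℚ) ^ k =
      (Nat.card {s : Fin k → Perm V // ∀ i e, f (r (s i) e) = !f e} : ℚ) := by
    intro f
    have e : {s : Fin k → Perm V // ∀ i e, f (r (s i) e) = !f e} ≃
        (Fin k → {s : Perm V // ∀ e, f (r s e) = !f e}) :=
      { toFun := fun s i => ⟨s.1 i, s.2 i⟩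
        invFun := fun s => ⟨fun i => (s i).1, fun i => (s i).2⟩
        left_inv := fun s => rfl
        right_inv := fun s => rfl }
    rw [Nat.card_congr e, Nat.card_fun]
    simp [cnt]
  have h4 : ∀ s : Fin k → Perm V, (phi (fun i => r (s i)) : ℚ) =
      (Nat.card {f : E → Bool // ∀ i e, f (r (s i) e) = !f e} : ℚ) := by
    intro s
    rw [← card_alt]
  rw [Finset.sum_congr rfl fun f _ => h3 f, Finset.sum_congr rfl fun s _ => h4 s]
  simp only [Nat.card_eq_fintype_card, Fintype.card_subtype, Finset.card_filter, Nat.cast_sum]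
  rw [Finset.sum_comm]

end Pool.Agent.H124R2.SC
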